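import Pool.Agent.H1TB.HingeH
import Pool.Agent.H63.VC3.Five
import Pool.Agent.H63.VC4.SWgen

/-! # The volume of the two-bridge knot from the shape parameters of the twist regions -/

namespace Pool.Agent.H1TB

open Pool.Agent.H63.VC Pool.Agent.H63.VC3 Pool.Agent.H63.VC4 Complex
open scoped BigOperators

section ChainGeoAux

variable (r : ℕ → ℤ) (R : ℕ) (z : ℕ → ℕ → ℂ)

theorem CGH_zz_succ (i : ℕ) :
    ooH r (i + 1) = ooH r i + ((r i).natAbs - if 0 < r i * r (i + 1) then 1 else 0) := rfl

theorem CGH_zz_same {i : ℕ} (h : 0 < r i * r (i + 1)) :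
    ooH r (i + 1) = ooH r i + ((r i).natAbs - 1) := by
  rw [CGH_zz_succ, if_pos h]

theorem CGH_zz_opp {i : ℕ} (h : r i * r (i + 1) < 0) :
    ooH r (i + 1) = ooH r i + (r i).natAbs := by
  rw [CGH_zz_succ, if_neg (by omega), Nat.sub_zero]

variable {r R}

theorem CGH_zz_step (hr : ∀ i, i < R + 1 → 2 ≤ (r i).natAbs) {i : ℕ} (hi : i ≤ R) :
    ooH r i + ((r i).natAbs - 1) ≤ ooH r (i + 1) := by
  rw [CGH_zz_succ]
  have := hr i (by omega)
  split_ifs <;> omega

theorem CGH_zz_mono (hr : ∀ i, i < R + 1 → 2 ≤ (r i).natAbs) {i j : ℕ} (hij : i ≤ j)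
    (hj : j ≤ R + 1) : ooH r i ≤ ooH r j := by
  induction j with
  | zero =>
    have : i = 0 := by omega
    rw [this]
  | succ j ih =>
    rcases Nat.lt_or_ge i (j + 1) with h | h
    · have h1 := ih (by omega) (by omega)
      have h2 := CGH_zz_step hr (i := j) (by omega)
      omega
    · have : i = j + 1 := by omega
      rw [this]

theorem CGH_zz_strict (hr : ∀ i, i < R + 1 → 2 ≤ (r i).natAbs) {i j : ℕ} (hij : i < j)
    (hj : j ≤ R + 1) : ooH r i + 1 ≤ ooH r j := by
  have h1 := CGH_zz_step hr (i := i) (by omega)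
  have h2 := CGH_zz_mono hr (i := i + 1) (j := j) hij hj
  have := hr i (by omega)
  omega

variable (r R)

/-- The region of a layer. -/
def CGH_reg (idx : ℕ) : ℕ := Nat.findGreatest (fun i => ooH r i ≤ idx) R

variable {r R}

theorem CGH_reg_eq (hr : ∀ i, i < R + 1 → 2 ≤ (r i).natAbs) {i k idx : ℕ} (hi : i ≤ R)
    (hk : 1 ≤ k) (hidx : idx + 1 = ooH r i + k) (h2 : i < R → ooH r i + k ≤ ooH r (i + 1)) :
    CGH_reg r R idx = i := by
  unfold CGH_reg
  rw [Nat.findGreatest_eq_iff]
  refine ⟨hi, fun _ => by omega, fun n hn hnR h3 => ?_⟩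
  have h4 := CGH_zz_mono hr (i := i + 1) (j := n) hn (by omega)
  have h5 := h2 (by omega)
  omega

variable (r R)

/-- The shape parameters of the layers. -/
noncomputable def CGH_sh (idx : ℕ) : ℂ :=
  if 0 < CGH_reg r R idx ∧ idx + 1 - ooH r (CGH_reg r R idx) = 1 ∧
      0 < r (CGH_reg r R idx - 1) * r (CGH_reg r R idx) then
    ((starRingEnd ℂ) (z (CGH_reg r R idx) 1))⁻¹
  else z (CGH_reg r R idx) (idx + 1 - ooH r (CGH_reg r R idx))

variable {r R}

theorem CGH_sh_gen (hr : ∀ i, i < R + 1 → 2 ≤ (r i).natAbs) {i k idx : ℕ} (hi : i ≤ R)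
    (hk : 1 ≤ k) (hidx : idx + 1 = ooH r i + k) (h2 : i < R → ooH r i + k ≤ ooH r (i + 1))
    (hsp : ¬(0 < i ∧ k = 1 ∧ 0 < r (i - 1) * r i)) :
    CGH_sh r R z idx = z i k := by
  have h := CGH_reg_eq hr hi hk hidx h2
  have e : idx + 1 - ooH r i = k := by omega
  unfold CGH_sh
  rw [h, e, if_neg hsp]

theorem CGH_sh_spec (hr : ∀ i, i < R + 1 → 2 ≤ (r i).natAbs) {i idx : ℕ} (hi : i < R)
    (hidx : idx = ooH r (i + 1)) (hs : 0 < r i * r (i + 1)) :
    CGH_sh r R z idx = ((starRingEnd ℂ) (z (i + 1) 1))⁻¹ := by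
  have h := CGH_reg_eq hr (i := i + 1) (k := 1) (idx := idx) hi le_rfl (by omega)
    (fun h => by
      have := CGH_zz_strict hr (i := i + 1) (j := i + 1 + 1) (by omega) (by omega)
      omega)
  have e : idx + 1 - ooH r (i + 1) = 1 := by omega
  unfold CGH_sh
  rw [h, e, if_pos ⟨by omega, rfl, by simpa using hs⟩]

/-- Every layer is a layer of a region. -/
theorem CGH_dec {idx : ℕ}
    (hidx : idx + 2 ≤ ooH r R + (r R).natAbs) :
    ∃ i k, i ≤ R ∧ 1 ≤ k ∧ idx + 1 = ooH r i + k ∧ (i < R → ooH r i + k ≤ ooH r (i + 1)) ∧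
      (i = R → k ≤ (r R).natAbs - 1) := by
  have h0 : ooH r 0 ≤ idx := Nat.zero_le _
  have h1 : ooH r (CGH_reg r R idx) ≤ idx :=
    Nat.findGreatest_spec (P := fun i => ooH r i ≤ idx) (Nat.zero_le R) h0
  have h2 : CGH_reg r R idx ≤ R := Nat.findGreatest_le R
  refine ⟨CGH_reg r R idx, idx + 1 - ooH r (CGH_reg r R idx), h2, by omega, by omega,
    fun hlt => ?_, fun he => ?_⟩
  · have h3 : ¬ooH r (CGH_reg r R idx + 1) ≤ idx :=
      Nat.findGreatest_is_greatest (P := fun i => ooH r i ≤ idx) (n := R)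
        (k := CGH_reg r R idx + 1) (Nat.lt_succ_self _) hlt
    omega
  · rw [he] at h1 ⊢
    omega

theorem CGH_hinge (hr : ∀ i, i < R + 1 → 2 ≤ (r i).natAbs) {i k idx : ℕ} (hi : i ≤ R)
    (hk : 1 ≤ k) (hidx : idx + 1 = ooH r i + k) (h2 : i < R → ooH r i + k ≤ ooH r (i + 1)) :
    IsHinge (conwayH ((List.range (R + 1)).map r)) idx ↔
      (i < R ∧ ooH r i + k = ooH r (i + 1)) ∨ (0 < i ∧ k = 1 ∧ 0 < r (i - 1) * r i) := by
  rw [hingeH_iff r R hr]
  constructor
  · rintro ⟨i', hi', h | ⟨h, hs⟩⟩
    · left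
      rcases Nat.lt_trichotomy i i' with hlt | heq | hgt
      · have h3 := CGH_zz_strict hr (i := i + 1) (j := i' + 1) (by omega) (by omega)
        have h4 := h2 (by omega)
        omega
      · rw [heq] at hidx ⊢
        exact ⟨hi', by omega⟩
      · have h3 := CGH_zz_mono hr (i := i' + 1) (j := i) (by omega) (by omega)
        omega
    · right
      rcases Nat.lt_trichotomy i (i' + 1) with hlt | heq | hgt
      · have h3 := CGH_zz_mono hr (i := i + 1) (j := i' + 1) (by omega) (by omega)
        have h4 := h2 (by omega)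
        omega
      · rw [heq] at hidx ⊢
        exact ⟨by omega, by omega, by simpa using hs⟩
      · have h3 := CGH_zz_strict hr (i := i' + 1) (j := i) (by omega) (by omega)
        omega
  · rintro (⟨h, h3⟩ | ⟨h, h3, hs⟩)
    · exact ⟨i, h, Or.inl (by omega)⟩
    · obtain ⟨i', rfl⟩ : ∃ i', i = i' + 1 := ⟨i - 1, by omega⟩
      exact ⟨i', by omega, Or.inr ⟨by omega, by simpa using hs⟩⟩

/-- The previous layer in the same region. -/
theorem CGH_shT (hr : ∀ i, i < R + 1 → 2 ≤ (r i).natAbs) {i k idx : ℕ} (hi : i ≤ R)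
    (hk : 2 ≤ k) (hidx : idx + 1 = ooH r i + k) (h2 : i < R → ooH r i + k ≤ ooH r (i + 1)) :
    shT (conwayH ((List.range (R + 1)).map r)) (CGH_sh r R z) (idx - 1) = z i (k - 1) := by
  have hidx' : idx - 1 + 1 = ooH r i + (k - 1) := by omega
  have h2' : i < R → ooH r i + (k - 1) ≤ ooH r (i + 1) := fun h => by
    have := h2 h
    omega
  have hh := CGH_hinge hr hi (by omega) hidx' h2'
  unfold shT
  by_cases hsp : 0 < i ∧ k - 1 = 1 ∧ 0 < r (i - 1) * r i
  · rw [if_pos (hh.2 (Or.inr hsp))]
    obtain ⟨h3, h4, hs⟩ := hsp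
    obtain ⟨i', rfl⟩ : ∃ i', i = i' + 1 := ⟨i - 1, by omega⟩
    rw [CGH_sh_spec z hr (i := i') (by omega) (by omega) (by simpa using hs), h4, map_inv₀,
      inv_inv, Complex.conj_conj]
  · rw [if_neg (fun h => by
      rcases hh.1 h with ⟨h3, h4⟩ | h3
      · have := h2 h3
        omega
      · exact hsp h3)]
    exact CGH_sh_gen z hr hi (by omega) hidx' h2' hsp

/-- The last layer of the previous region. -/
theorem CGH_shT' (hr : ∀ i, i < R + 1 → 2 ≤ (r i).natAbs) {i k idx : ℕ} (hi : i < R)
    (hidx : idx = ooH r (i + 1)) (hk : 1 ≤ k) (h2 : ooH r (i + 1) = ooH r i + k)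
    (hsp : ¬(0 < i ∧ k = 1 ∧ 0 < r (i - 1) * r i)) :
    shT (conwayH ((List.range (R + 1)).map r)) (CGH_sh r R z) (idx - 1) =
      ((starRingEnd ℂ) (z i k))⁻¹ := by
  have hidx' : idx - 1 + 1 = ooH r i + k := by omega
  have hh := CGH_hinge hr (i := i) (k := k) (idx := idx - 1) (by omega) (by omega) hidx'
    (fun _ => by omega)
  unfold shT
  rw [if_pos (hh.2 (Or.inl ⟨hi, by omega⟩)), CGH_sh_gen z hr (i := i) (k := k) (by omega)
    (by omega) hidx' (fun _ => by omega) hsp]

theorem CGH_bw (w : ℂ) : blochWigner ((starRingEnd ℂ) w)⁻¹ = blochWigner w := by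
  rw [SWpath_inv, bw_conj, neg_neg]

/-- The Bloch-Wigner function of the shape parameters. -/
theorem CGH_bw_sh (hr : ∀ i, i < R + 1 → 2 ≤ (r i).natAbs) {i k idx : ℕ} (hi : i ≤ R)
    (hk : 1 ≤ k) (hidx : idx + 1 = ooH r i + k) (h2 : i < R → ooH r i + k ≤ ooH r (i + 1)) :
    blochWigner (CGH_sh r R z idx) = blochWigner (z i k) := by
  by_cases hsp : 0 < i ∧ k = 1 ∧ 0 < r (i - 1) * r i
  · obtain ⟨h3, h4, hs⟩ := hsp
    obtain ⟨i', rfl⟩ : ∃ i', i = i' + 1 := ⟨i - 1, by omega⟩
    rw [CGH_sh_spec z hr (i := i') (by omega) (by omega) (by simpa using hs), h4,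
      CGH_bw]
  · rw [CGH_sh_gen z hr hi hk hidx h2 hsp]

theorem CGH_sum_Icc (f : ℕ → ℝ) (K : ℕ) :
    ∑ k ∈ Finset.Icc 1 K, f k = ∑ j ∈ Finset.range K, f (j + 1) := by
  induction K with
  | zero => simp
  | succ K ih => rw [Finset.sum_Icc_succ_top (by omega), ih, Finset.sum_range_succ]

theorem CGH_sum_block (hr : ∀ i, i < R + 1 → 2 ≤ (r i).natAbs) {i K : ℕ} (hi : i ≤ R)
    (h2 : i < R → ooH r i + K ≤ ooH r (i + 1)) :
    ∑ idx ∈ Finset.Ico (ooH r i) (ooH r i + K), blochWigner (CGH_sh r R z idx) =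
      ∑ k ∈ Finset.Icc 1 K, blochWigner (z i k) := by
  rw [Finset.sum_Ico_eq_sum_range, Nat.add_sub_cancel_left, CGH_sum_Icc]
  refine Finset.sum_congr rfl fun j hj => ?_
  rw [Finset.mem_range] at hj
  exact CGH_bw_sh z hr hi (by omega) (by omega) (fun h => by
    have := h2 h
    omega)

theorem CGH_sum_pre (hr : ∀ i, i < R + 1 → 2 ≤ (r i).natAbs)
    (hr0 : ∀ i, i < R → r i * r (i + 1) ≠ 0) (j : ℕ) (hj : j ≤ R) :
    ∑ idx ∈ Finset.range (ooH r j), blochWigner (CGH_sh r R z idx) =
      ∑ i ∈ Finset.range j, (∑ k ∈ Finset.Icc 1 ((r i).natAbs - 1), blochWigner (z i k) +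
        if r i * r (i + 1) < 0 then blochWigner (z i ((r i).natAbs)) else 0) := by
  induction j with
  | zero => simp [ooH]
  | succ j ih =>
    have hle := CGH_zz_mono hr (i := j) (j := j + 1) (by omega) (by omega)
    rw [Finset.sum_range_succ, ← ih (by omega), Finset.range_eq_Ico,
      ← Finset.sum_Ico_consecutive _ (Nat.zero_le (ooH r j)) hle, Finset.range_eq_Ico]
    congr 1
    have hpj := hr j (by omega)
    rcases lt_or_gt_of_ne (hr0 j (by omega)) with h | h
    · rw [if_pos h, CGH_zz_opp r h, CGH_sum_block z hr (by omega)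
        (fun _ => (CGH_zz_opp r h).ge)]
      obtain ⟨q, hq⟩ : ∃ q, (r j).natAbs = q + 1 := ⟨(r j).natAbs - 1, by omega⟩
      rw [hq, Finset.sum_Icc_succ_top (by omega), Nat.add_sub_cancel]
    · rw [if_neg (not_lt.2 h.le), add_zero, CGH_zz_same r h, CGH_sum_block z hr (by omega)
        (fun _ => (CGH_zz_same r h).ge)]

end ChainGeoAux

theorem chain_geoH (r : ℕ → ℤ) (R : ℕ) (hR : 1 ≤ R) (hr : ∀ i, i < R + 1 → 2 ≤ (r i).natAbs)
    (hmid : ∀ i, 0 < i → i < R → 0 < r (i - 1) * r i → 0 < r i * r (i + 1) → 3 ≤ (r i).natAbs)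
    (hfst : 0 < r 0 * r 1 → 3 ≤ (r 0).natAbs) (hlst : 0 < r (R - 1) * r R → 3 ≤ (r R).natAbs)
    (hr0 : ∀ i, i < R → r i * r (i + 1) ≠ 0) (z : ℕ → ℕ → ℂ)
    (hpos : ∀ i k, i < R + 1 → 1 ≤ k → k ≤ (r i).natAbs - 1 → ¬(i = 0 ∧ k = 1) →
      ¬(i = R ∧ k = (r i).natAbs - 1) → 0 < (z i k).im)
    (h0 : z 0 1 = 1) (h1 : z R ((r R).natAbs - 1) = 1)
    (hfan : ∀ i k, i < R + 1 → 1 ≤ k → k ≤ (r i).natAbs - 1 → ¬(i = 0 ∧ k = 1) →
      ¬(i = R ∧ k = (r i).natAbs - 1) →
      (1 - (z i k)⁻¹) ^ 2 * z i (k - 1) * z i (k + 1) = 1)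
    (hopp : ∀ i, i < R → r i * r (i + 1) < 0 → 0 < (z i ((r i).natAbs)).im ∧
      z (i + 1) 0 * (starRingEnd ℂ) (z i ((r i).natAbs)) = 1 ∧
      (1 - z i ((r i).natAbs)) ^ 2 * z i ((r i).natAbs - 1) *
        (starRingEnd ℂ) (z (i + 1) 1) = -z i ((r i).natAbs))
    (hsame : ∀ i, i < R → 0 < r i * r (i + 1) →
      z (i + 1) 0 * z i ((r i).natAbs) = 1 ∧
      z i ((r i).natAbs - 1) = -(z i ((r i).natAbs) * z (i + 1) 1)) :
    IsGreatest (structureVolumes (conwayH ((List.range (R + 1)).map r)))
      (2 * ∑ i ∈ Finset.range (R + 1), ∑ k ∈ Finset.Icc 1 ((r i).natAbs - 1),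
          blochWigner (z i k) +
        2 * ∑ i ∈ Finset.range R, if r i * r (i + 1) < 0 then
          blochWigner (z i ((r i).natAbs)) else 0) := by
  have hsum := conwayH_sum r R hr
  have hpR := hr R (by omega)
  have hoo1 : 2 ≤ ooH r 1 := by
    have h0' := hr 0 (by omega)
    rcases lt_or_gt_of_ne (hr0 0 (by omega)) with h | h
    · have h7 := CGH_zz_opp r h
      have h8 : ooH r 0 = 0 := rfl
      rw [zero_add] at h7
      omega
    · have h7 := CGH_zz_same r h
      have h8 : ooH r 0 = 0 := rfl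
      have h9 := hfst h
      rw [zero_add] at h7
      omega
  have hooR : 2 ≤ ooH r R := by
    have := CGH_zz_mono hr (i := 1) (j := R) (by omega) (by omega)
    omega
  have hflat : ∀ i, i < R → 0 < r i * r (i + 1) → ¬(i + 1 = R ∧ 1 = (r (i + 1)).natAbs - 1) := by
    rintro i hi hs ⟨rfl, h⟩
    have := hlst (by simpa using hs)
    omega
  set a := conwayH ((List.range (R + 1)).map r) with ha
  set sh := CGH_sh r R z with hsh
  -- the first and the last layer
  have hsh0 : sh 0 = 1 := by
    rw [← h0]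
    exact CGH_sh_gen z hr (i := 0) (k := 1) (by omega) le_rfl (by simp [ooH])
      (fun _ => by
        have := CGH_zz_strict hr (i := 0) (j := 0 + 1) (by omega) (by omega)
        omega) (fun h => by omega)
  have hsh1 : sh (a.sum - 2) = 1 := by
    rw [← h1]
    exact CGH_sh_gen z hr (i := R) (k := (r R).natAbs - 1) le_rfl (by omega) (by omega)
      (fun h => by omega) (fun h => by
        have := hlst h.2.2
        omega)
  -- the value
  have hval : ∑ idx ∈ Finset.Icc 1 (a.sum - 3), blochWigner (sh idx) =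
      ∑ i ∈ Finset.range (R + 1), ∑ k ∈ Finset.Icc 1 ((r i).natAbs - 1),
          blochWigner (z i k) +
        ∑ i ∈ Finset.range R, if r i * r (i + 1) < 0 then
          blochWigner (z i ((r i).natAbs)) else 0 := by
    have hD1 : blochWigner 1 = 0 := by
      have := blochWigner_real 1
      rwa [Complex.ofReal_one] at this
    have e1 : ∑ idx ∈ Finset.range (ooH r R + ((r R).natAbs - 1)), blochWigner (sh idx) =
        ∑ idx ∈ Finset.Icc 1 (a.sum - 3), blochWigner (sh idx) := by
      obtain ⟨q, hq⟩ : ∃ q, ooH r R + ((r R).natAbs - 1) = q + 1 + 1 :=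
        ⟨ooH r R + ((r R).natAbs - 1) - 2, by omega⟩
      have e3 : a.sum - 2 = q + 1 := by omega
      have e4 : a.sum - 3 = q := by omega
      rw [hq, Finset.sum_range_succ, Finset.sum_range_succ', ← e3, hsh1, hsh0, hD1, add_zero,
        add_zero, e4, CGH_sum_Icc]
    have e2 : ∑ idx ∈ Finset.range (ooH r R + ((r R).natAbs - 1)), blochWigner (sh idx) =
        ∑ idx ∈ Finset.range (ooH r R), blochWigner (sh idx) +
          ∑ k ∈ Finset.Icc 1 ((r R).natAbs - 1), blochWigner (z R k) := by
      rw [Finset.range_eq_Ico, ← Finset.sum_Ico_consecutive _ (Nat.zero_le (ooH r R))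
        (Nat.le_add_right _ _), CGH_sum_block z hr le_rfl (fun h => by omega),
        Finset.range_eq_Ico]
    rw [← e1, e2, CGH_sum_pre z hr hr0 R le_rfl, Finset.sum_add_distrib,
      Finset.sum_range_succ]
    ring
  have hgoal := sw_shapes a sh (by omega) hsh0 hsh1 ?_ ?_ ?_
  · rw [hval, mul_add] at hgoal
    exact hgoal
  · -- positivity
    intro idx hidx
    rw [Finset.mem_Icc] at hidx
    obtain ⟨i, k, hi, hk, hik, hlt, heq⟩ := CGH_dec (r := r) (R := R) (idx := idx) (by omega)
    have hpi := hr i (by omega)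
    by_cases hsp : 0 < i ∧ k = 1 ∧ 0 < r (i - 1) * r i
    · obtain ⟨h3, h4, hs⟩ := hsp
      obtain ⟨i', rfl⟩ : ∃ i', i = i' + 1 := ⟨i - 1, by omega⟩
      rw [hsh, CGH_sh_spec z hr (i := i') (by omega) (by omega) (by simpa using hs)]
      have h5 := hpos (i' + 1) 1 (by omega) le_rfl (by omega) (by omega)
        (hflat i' (by omega) (by simpa using hs))
      rw [Complex.inv_im, Complex.conj_im, neg_neg]
      refine div_pos h5 (Complex.normSq_pos.2 fun h6 => ?_)
      rw [map_eq_zero] at h6
      rw [h6] at h5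
      simp at h5
    · rw [hsh, CGH_sh_gen z hr hi hk hik hlt hsp]
      have hi0 : ¬(i = 0 ∧ k = 1) := by
        rintro ⟨rfl, rfl⟩
        have : ooH r 0 = 0 := rfl
        omega
      rcases Nat.lt_or_ge ((r i).natAbs - 1) k with h5 | h5
      · have hiR : i < R := by
          rcases Nat.lt_or_ge i R with h | h
          · exact h
          · have : i = R := by omega
            subst this
            have := heq rfl
            omega
        have h6 := hlt hiR
        rcases lt_or_gt_of_ne (hr0 i hiR) with h | h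
        · have h7 := CGH_zz_opp r h
          have h8 : k = (r i).natAbs := by omega
          rw [h8]
          exact (hopp i hiR h).1
        · have h7 := CGH_zz_same r h
          omega
      · refine hpos i k (by omega) hk h5 hi0 ?_
        rintro ⟨rfl, rfl⟩
        omega
  · -- non-hinges
    intro idx hidx hnh
    rw [Finset.mem_Icc] at hidx
    obtain ⟨i, k, hi, hk, hik, hlt, heq⟩ := CGH_dec (r := r) (R := R) (idx := idx) (by omega)
    have hpi := hr i (by omega)
    rw [CGH_hinge hr hi hk hik hlt, not_or] at hnh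
    obtain ⟨hn1, hn2⟩ := hnh
    have hlt' : i < R → ooH r i + (k + 1) ≤ ooH r (i + 1) := fun h => by
      have := hlt h
      have h3 : ooH r i + k ≠ ooH r (i + 1) := fun h4 => hn1 ⟨h, h4⟩
      omega
    rw [hsh, CGH_sh_gen z hr hi hk hik hlt hn2,
      CGH_sh_gen z hr (k := k + 1) (idx := idx + 1) hi (by omega) (by omega) hlt'
        (fun h => by omega)]
    have hi0 : ¬(i = 0 ∧ k = 1) := by
      rintro ⟨rfl, rfl⟩
      have : ooH r 0 = 0 := rfl
      omega
    have hkle : k ≤ (r i).natAbs - 1 := by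
      rcases Nat.lt_or_ge i R with h | h
      · have h3 := hlt' h
        rw [CGH_zz_succ] at h3
        omega
      · have : i = R := by omega
        subst this
        exact heq rfl
    have hiR : ¬(i = R ∧ k = (r i).natAbs - 1) := by
      rintro ⟨rfl, rfl⟩
      omega
    have hf := hfan i k (by omega) hk hkle hi0 hiR
    rcases Nat.lt_or_ge 1 k with h2k | h2k
    · rw [CGH_shT z hr hi h2k hik hlt]
      exact hf
    · have hk1 : k = 1 := by omega
      subst hk1
      have hi' : 0 < i := by omega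
      obtain ⟨j, rfl⟩ : ∃ j, i = j + 1 := ⟨i - 1, by omega⟩
      have hopp' : r j * r (j + 1) < 0 := by
        rcases lt_or_gt_of_ne (hr0 j (by omega)) with h | h
        · exact h
        · exact absurd ⟨by omega, rfl, by simpa using h⟩ hn2
      have hpj := hr j (by omega)
      rw [CGH_shT' z hr (i := j) (k := (r j).natAbs) (by omega) (by omega) (by omega)
        (CGH_zz_opp r hopp') (by omega)]
      rw [← eq_inv_of_mul_eq_one_left (hopp j (by omega) hopp').2.1]
      exact hf
  · -- hinges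
    intro idx hidx hh
    rw [Finset.mem_Icc] at hidx
    obtain ⟨i, k, hi, hk, hik, hlt, heq⟩ := CGH_dec (r := r) (R := R) (idx := idx) (by omega)
    have hpi := hr i (by omega)
    rw [CGH_hinge hr hi hk hik hlt] at hh
    rcases hh with ⟨hiR, hke⟩ | ⟨hi0, rfl, hs⟩
    · have hzne : z (i + 1) 1 ≠ 0 := by
        intro h6
        have hp1 := hr (i + 1) (by omega)
        by_cases hfl : i + 1 = R ∧ 1 = (r (i + 1)).natAbs - 1
        · obtain ⟨rfl, h5⟩ := hfl
          rw [← h5] at h1
          rw [h1] at h6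
          exact one_ne_zero h6
        have h5 := hpos (i + 1) 1 (by omega) le_rfl (by omega) (by omega) hfl
        rw [h6] at h5
        simp at h5
      rcases lt_or_gt_of_ne (hr0 i hiR) with h | h
      · -- opposite signs
        have h7 := CGH_zz_opp r h
        have h8 : k = (r i).natAbs := by omega
        rw [hsh, CGH_sh_gen z hr hi hk hik hlt (by omega),
          CGH_shT z hr hi (by omega) hik hlt,
          CGH_sh_gen z hr (i := i + 1) (k := 1) (idx := idx + 1) (by omega) le_rfl (by omega)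
            (fun _ => by
              have := CGH_zz_strict hr (i := i + 1) (j := i + 1 + 1) (by omega) (by omega)
              omega)
            (fun h => by
              have h9 := h.2.2
              rw [Nat.add_sub_cancel] at h9
              omega), h8]
        obtain ⟨g1, g2, g3⟩ := hopp i hiR h
        have hU : z i ((r i).natAbs) ≠ 0 := by
          intro h6
          rw [h6] at g1
          simp at g1
        field_simp
        linear_combination g3
      · -- equal signs, the last layer of the region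
        have h7 := CGH_zz_same r h
        have h8 : k = (r i).natAbs - 1 := by omega
        have hsp' : ¬(0 < i ∧ k = 1 ∧ 0 < r (i - 1) * r i) := by
          rintro ⟨g1, g2, g3⟩
          have := hmid i g1 hiR g3 h
          omega
        have hi0 : ¬(i = 0 ∧ k = 1) := by
          rintro ⟨rfl, rfl⟩
          have := hfst h
          omega
        have hprev : shT a (CGH_sh r R z) (idx - 1) = z i (k - 1) := by
          rcases Nat.lt_or_ge 1 k with h2k | h2k
          · exact CGH_shT z hr hi h2k hik hlt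
          · have hk1 : k = 1 := by omega
            rw [hk1]
            have hi' : 0 < i := by omega
            obtain ⟨j, rfl⟩ : ∃ j, i = j + 1 := ⟨i - 1, by omega⟩
            have hopp' : r j * r (j + 1) < 0 := by
              rcases lt_or_gt_of_ne (hr0 j (by omega)) with h' | h'
              · exact h'
              · exact absurd ⟨by omega, hk1, by simpa using h'⟩ hsp'
            have hpj := hr j (by omega)
            rw [CGH_shT' z hr (i := j) (k := (r j).natAbs) (by omega) (by omega) (by omega)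
              (CGH_zz_opp r hopp') (by omega),
              ← eq_inv_of_mul_eq_one_left (hopp j (by omega) hopp').2.1]
        rw [hsh, CGH_sh_gen z hr hi hk hik hlt hsp', hprev,
          CGH_sh_spec z hr (i := i) (idx := idx + 1) hiR (by omega) h, map_inv₀,
          Complex.conj_conj]
        have hf := hfan i k (by omega) hk (by omega) hi0 (by omega)
        obtain ⟨g1, g2⟩ := hsame i hiR h
        have e : k + 1 = (r i).natAbs := by omega
        rw [← h8, ← e] at g2
        rw [e] at g2 hf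
        have g3 : z i k * (z (i + 1) 1)⁻¹ = -z i ((r i).natAbs) := by
          rw [g2]
          field_simp
        linear_combination (1 - (z i k)⁻¹) ^ 2 * z i (k - 1) * g3 - hf
    · -- equal signs, the first layer of the region
      obtain ⟨j, rfl⟩ : ∃ j, i = j + 1 := ⟨i - 1, by omega⟩
      rw [Nat.add_sub_cancel] at hs
      have hpj := hr j (by omega)
      have hsp' : ¬(0 < j ∧ (r j).natAbs - 1 = 1 ∧ 0 < r (j - 1) * r j) := by
        rintro ⟨g1, g2, g3⟩
        have := hmid j g1 (by omega) g3 hs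
        omega
      have h2' : j + 1 < R → ooH r (j + 1) + 2 ≤ ooH r (j + 1 + 1) := fun hj => by
        rcases lt_or_gt_of_ne (hr0 (j + 1) hj) with h | h
        · have := CGH_zz_opp r h
          omega
        · have := CGH_zz_same r h
          have := hmid (j + 1) (by omega) hj (by simpa using hs) h
          omega
      rw [hsh, CGH_sh_spec z hr (i := j) (by omega) (by omega) hs,
        CGH_shT' z hr (i := j) (k := (r j).natAbs - 1) (by omega) (by omega) (by omega)
          (CGH_zz_same r hs) hsp',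
        CGH_sh_gen z hr (i := j + 1) (k := 2) (idx := idx + 1) (by omega) (by omega)
          (by omega) h2' (fun h => by omega)]
      have hf := hfan (j + 1) 1 (by omega) le_rfl (by omega) (by omega) (hflat j (by omega) hs)
      obtain ⟨g1, g2⟩ := hsame j (by omega) hs
      have hz1 : z (j + 1) 1 ≠ 0 := by
        intro h6
        have h5 := hpos (j + 1) 1 (by omega) le_rfl (by omega) (by omega)
          (hflat j (by omega) hs)
        rw [h6] at h5
        simp at h5
      have hU : z j ((r j).natAbs) ≠ 0 := right_ne_zero_of_mul_eq_one g1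
      have hU0 : z (j + 1) 0 = (z j ((r j).natAbs))⁻¹ := eq_inv_of_mul_eq_one_left g1
      have key : (1 - z (j + 1) 1) ^ 2 * (z (j + 1) 1)⁻¹ * (z j ((r j).natAbs - 1))⁻¹ *
          z (j + 1) 2 = -1 := by
        rw [g2]
        rw [show (1 : ℕ) - 1 = 0 from rfl, show (1 : ℕ) + 1 = 2 from rfl, hU0] at hf
        field_simp at hf ⊢
        linear_combination -hf
      have key' := congrArg (starRingEnd ℂ) key
      simp only [map_mul, map_pow, map_sub, map_one, map_neg, map_inv₀] at key'
      rw [inv_inv]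
      exact key'

end Pool.Agent.H1TB
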